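import Pool.Agent.Q214.SA.Simp
import Pool.Agent.Q214.SA.Gener

/-!
# Simplicity of the quotients of a separable quotient generator is not a `G_δ` condition

Let `G` be the infinite matrix with `1/2` on the diagonal and `-1` above it. The finite matrices
`M_n` with the product `a G b` are simple algebras, but their union is dense in the algebra
`ℓ¹(ℕ × ℕ)` with the product `a G b`, which has the proper nonzero closed ideal of all `b` with
`G b = 0`. For `z ∈ 2^ω` an ideal `K_z` of `ℓ¹(S)` is defined which depends continuously on `z` in
the Wijsman topology, such that the quotient is `M_n` with this product if `z` has `n - 1` ones,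
and `ℓ¹(ℕ × ℕ)` if `z` has infinitely many ones.
-/

namespace Pool.Agent.Results.MP_2e14e4_lc.SimpleNotGdelta

open Q214

/-- For `S` the free semigroup on countably many generators, `ℓ¹(S)` is a separable quotient
generator, and the set of the closed two-sided ideals with simple quotient is not a `G_δ` set in the
Wijsman topology. -/
theorem result :
    IsSeparableQuotientGenerator (EllOneS (FreeSemigroup ℕ)) ∧
      ¬ IsGδ (Simple (EllOneS (FreeSemigroup ℕ))) :=
  ⟨SA.generator_P, SA.not_isGδ⟩

end Pool.Agent.Results.MP_2e14e4_lc.SimpleNotGdelta
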